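import Pool.Agent.Helper3_PPX.Stmts

/-!
# Squad PPX: module SPA

Regularity of a complete intersection in the plane, over the field generated by `a`.
-/

set_option autoImplicit false

universe u

namespace Pool.Agent.PPX.H46

section core

open Polynomial

variable {K E : Type*} [Field K] [Field E] [Algebra K E]

/-- evaluation: the inner variable at `x`, the outer variable at `y` -/
noncomputable def ev2 (x y : E) : Polynomial (Polynomial K) →+* E :=
  eval₂RingHom (aeval x : K[X] →ₐ[K] E).toRingHom y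

theorem ev2_C (x y : E) (p : K[X]) : ev2 x y (C p) = aeval x p := by
  simp [ev2]

theorem ev2_X (x y : E) : ev2 (K := K) x y X = y := by
  simp [ev2]

/-- bidegree at most `(A, B)` -/
def BD (A B : ℕ) (F : Polynomial (Polynomial K)) : Prop :=
  F.natDegree ≤ B ∧ ∀ j, (F.coeff j).natDegree ≤ A

theorem BD.add {A B : ℕ} {F G : Polynomial (Polynomial K)} (hF : BD A B F) (hG : BD A B G) :
    BD A B (F + G) :=
  ⟨(natDegree_add_le _ _).trans (max_le hF.1 hG.1), fun j => by
    rw [coeff_add]
    exact (natDegree_add_le _ _).trans (max_le (hF.2 j) (hG.2 j))⟩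

theorem BD.neg {A B : ℕ} {F : Polynomial (Polynomial K)} (hF : BD A B F) : BD A B (-F) :=
  ⟨by rw [natDegree_neg]; exact hF.1, fun j => by rw [coeff_neg, natDegree_neg]; exact hF.2 j⟩

theorem BD.sub {A B : ℕ} {F G : Polynomial (Polynomial K)} (hF : BD A B F) (hG : BD A B G) :
    BD A B (F - G) := by
  rw [sub_eq_add_neg]
  exact hF.add hG.neg

theorem BD.zero (A B : ℕ) : BD A B (0 : Polynomial (Polynomial K)) :=
  ⟨by simp, fun j => by simp⟩

theorem BD.mul {A B A' B' : ℕ} {F G : Polynomial (Polynomial K)} (hF : BD A B F)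
    (hG : BD A' B' G) : BD (A + A') (B + B') (F * G) := by
  refine ⟨natDegree_mul_le_of_le hF.1 hG.1, fun j => ?_⟩
  rw [coeff_mul]
  apply natDegree_sum_le_of_forall_le
  intro p _
  exact natDegree_mul_le_of_le (hF.2 _) (hG.2 _)

theorem BD.mono {A B A' B' : ℕ} {F : Polynomial (Polynomial K)} (hF : BD A B F) (hA : A ≤ A')
    (hB : B ≤ B') : BD A' B' F := ⟨hF.1.trans hB, fun j => (hF.2 j).trans hA⟩

theorem BD.pow {A B : ℕ} {F : Polynomial (Polynomial K)} (hF : BD A B F) (n : ℕ) :
    BD (n * A) (n * B) (F ^ n) := by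
  induction n with
  | zero =>
    rw [pow_zero]
    refine ⟨by simp, fun j => ?_⟩
    rw [coeff_one]
    split_ifs <;> simp
  | succ n ih =>
    rw [pow_succ]
    refine (ih.mul hF).mono ?_ ?_
    · rw [Nat.succ_mul]
    · rw [Nat.succ_mul]

/-- the space of the monomials -/
def WW (K : Type*) {E : Type*} [Field K] [Field E] [Algebra K E] (x y : E) (A B : ℕ) :
    Submodule K E :=
  Submodule.span K {z | ∃ i j : ℕ, i ≤ A ∧ j ≤ B ∧ z = x ^ i * y ^ j}

theorem ev_mem {x y : E} {A B : ℕ} {F : Polynomial (Polynomial K)} (hF : BD A B F) :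
    ev2 x y F ∈ WW K x y A B := by
  have h1 : ev2 x y F = ∑ j ∈ Finset.range (B + 1), aeval x (F.coeff j) * y ^ j := by
    unfold ev2
    rw [coe_eval₂RingHom, eval₂_eq_sum_range' _ (Nat.lt_succ_of_le hF.1)]
    rfl
  rw [h1]
  apply Submodule.sum_mem
  intro j hj
  rw [aeval_eq_sum_range' (Nat.lt_succ_of_le (hF.2 j)), Finset.sum_mul]
  apply Submodule.sum_mem
  intro i hi
  rw [smul_mul_assoc]
  apply Submodule.smul_mem
  exact Submodule.subset_span ⟨i, j, Nat.lt_succ_iff.1 (Finset.mem_range.1 hi),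
    Nat.lt_succ_iff.1 (Finset.mem_range.1 hj), rfl⟩

/-- product with a polynomial in the outer variable -/
theorem BD.mapC {A B B' : ℕ} {F : Polynomial (Polynomial K)} (hF : BD A B F) {P : K[X]}
    (hP : P.natDegree ≤ B') : BD A (B' + B) (P.map C * F) := by
  have h : BD 0 B' (P.map (C : K →+* K[X])) := by
    refine ⟨natDegree_map_le.trans hP, fun j => ?_⟩
    rw [coeff_map, natDegree_C]
  have := h.mul hF
  rwa [zero_add] at this

theorem core {x y : E} {r q : Polynomial (Polynomial K)} {m₀ m₁ : ℕ} (hr : BD m₀ m₁ r)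
    (hq : BD m₀ m₁ q) (er : ev2 x y r = 0) (eq : ev2 x y q = 0) (e : K)
    (hlc : r.leadingCoeff.eval e ≠ 0)
    (hco : IsCoprime (r.map (evalRingHom e)) (q.map (evalRingHom e))) {A B : ℕ} (hA : m₀ ≤ A)
    (hB : 2 * m₁ ≤ B) {F : Polynomial (Polynomial K)} (hF : BD A B F) :
    ∃ F₁ : Polynomial (Polynomial K), BD (A - 1) B F₁ ∧ ev2 x y F = (x - algebraMap K E e) * ev2 x y F₁ := by
  obtain ⟨re, hre⟩ : ∃ re, re = r.map (evalRingHom e) := ⟨_, rfl⟩
  obtain ⟨qe, hqe⟩ : ∃ qe, qe = q.map (evalRingHom e) := ⟨_, rfl⟩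
  obtain ⟨Fe, hFe⟩ : ∃ Fe, Fe = F.map (evalRingHom e) := ⟨_, rfl⟩
  rw [← hre, ← hqe] at hco
  have hdr : re.natDegree = r.natDegree := by
    rw [hre]
    exact natDegree_map_of_leadingCoeff_ne_zero _ hlc
  have hre0 : re ≠ 0 := by
    intro h0
    apply hlc
    have h1 := congrArg (fun p : K[X] => p.coeff r.natDegree) h0
    simp only [hre, coeff_map, coeff_zero] at h1
    exact h1
  obtain ⟨a, b, hab⟩ := hco
  obtain ⟨v, hv⟩ : ∃ v, v = Fe * b := ⟨_, rfl⟩
  obtain ⟨V, hV⟩ : ∃ V, V = v % re := ⟨_, rfl⟩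
  obtain ⟨U, hU⟩ : ∃ U, U = Fe * a + (v / re) * qe := ⟨_, rfl⟩
  have hUV : U * re + V * qe = Fe := by
    have h1 := EuclideanDomain.div_add_mod v re
    rw [hU, hV]
    have h2 : v % re = v - re * (v / re) := by linear_combination h1
    rw [h2, hv]
    linear_combination Fe * hab
  have hVd : V ≠ 0 → V.natDegree < re.natDegree := by
    intro hV0
    rw [hV] at hV0 ⊢
    exact natDegree_lt_natDegree hV0 (EuclideanDomain.mod_lt v hre0)
  have hrm : re.natDegree ≤ m₁ := by rw [hdr]; exact hr.1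
  -- the degree of `V q`
  have hVq : BD m₀ B (V.map C * q) := by
    by_cases hV0 : V = 0
    · rw [hV0, Polynomial.map_zero, zero_mul]
      exact BD.zero _ _
    · exact (hq.mapC (le_refl V.natDegree)).mono le_rfl (by have := hVd hV0; omega)
  have hVqe : (V * qe).natDegree ≤ B := by
    have h1 : V * qe = (V.map C * q).map (evalRingHom e) := by
      rw [Polynomial.map_mul, Polynomial.map_map, hqe]
      have h2 : (evalRingHom e).comp (C : K →+* K[X]) = RingHom.id K := by
        ext z
        simp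
      rw [h2, Polynomial.map_id]
    rw [h1]
    exact natDegree_map_le.trans hVq.1
  have hUre : (U * re).natDegree ≤ B := by
    have h1 : U * re = Fe - V * qe := by rw [← hUV]; ring
    rw [h1]
    refine (natDegree_sub_le _ _).trans (max_le ?_ hVqe)
    rw [hFe]
    exact natDegree_map_le.trans hF.1
  have hUr : BD m₀ B (U.map C * r) := by
    by_cases hU0 : U = 0
    · rw [hU0, Polynomial.map_zero, zero_mul]
      exact BD.zero _ _
    · rw [natDegree_mul hU0 hre0, hdr] at hUre
      have h1 : BD m₀ r.natDegree r := ⟨le_rfl, hr.2⟩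
      exact (h1.mapC (le_refl U.natDegree)).mono le_rfl hUre
  obtain ⟨G, hG⟩ : ∃ G, G = F - U.map C * r - V.map C * q := ⟨_, rfl⟩
  have hGB : BD A B G := by
    rw [hG]
    exact (hF.sub (hUr.mono hA le_rfl)).sub (hVq.mono hA le_rfl)
  have hGe : ∀ j, (G.coeff j).eval e = 0 := by
    intro j
    have h2 : (evalRingHom e).comp (C : K →+* K[X]) = RingHom.id K := by
      ext z
      simp
    have h1 : G.map (evalRingHom e) = 0 := by
      rw [hG, Polynomial.map_sub, Polynomial.map_sub, Polynomial.map_mul, Polynomial.map_mul,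
        Polynomial.map_map, Polynomial.map_map, h2, Polynomial.map_id, Polynomial.map_id, ← hFe,
        ← hre, ← hqe, ← hUV]
      ring
    have h3 := congrArg (fun p : K[X] => p.coeff j) h1
    simp only [coeff_map, coeff_zero] at h3
    exact h3
  have hevG : ev2 x y G = ev2 x y F := by
    rw [hG, map_sub, map_sub, map_mul, map_mul, er, eq, mul_zero, mul_zero, sub_zero, sub_zero]
  refine ⟨∑ j ∈ Finset.range (B + 1), C (G.coeff j /ₘ (X - C e)) * X ^ j, ⟨?_, ?_⟩, ?_⟩
  · apply natDegree_sum_le_of_forall_le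
    intro j hj
    exact (natDegree_C_mul_X_pow_le _ _).trans (Nat.lt_succ_iff.1 (Finset.mem_range.1 hj))
  · intro j
    rw [finsetSum_coeff]
    apply natDegree_sum_le_of_forall_le
    intro i _
    rw [coeff_C_mul_X_pow]
    split_ifs with h
    · rw [natDegree_divByMonic _ (monic_X_sub_C e), natDegree_X_sub_C]
      exact Nat.sub_le_sub_right (hGB.2 i) 1
    · simp
  · rw [← hevG, map_sum, Finset.mul_sum]
    have h1 : ev2 x y G = ∑ j ∈ Finset.range (B + 1), aeval x (G.coeff j) * y ^ j := by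
      unfold ev2
      rw [coe_eval₂RingHom, eval₂_eq_sum_range' _ (Nat.lt_succ_of_le hGB.1)]
      rfl
    rw [h1]
    apply Finset.sum_congr rfl
    intro j _
    rw [map_mul, map_pow, ev2_X, ev2_C]
    have h2 := (mul_divByMonic_eq_iff_isRoot (p := G.coeff j) (a := e)).2 (hGe j)
    conv_lhs => rw [← h2]
    rw [map_mul, map_sub, aeval_X, aeval_C]
    ring

theorem W_le {x y : E} {r q : Polynomial (Polynomial K)} {m₀ m₁ : ℕ} (hr : BD m₀ m₁ r)
    (hq : BD m₀ m₁ q) (er : ev2 x y r = 0) (eq : ev2 x y q = 0) (e : K)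
    (hlc : r.leadingCoeff.eval e ≠ 0)
    (hco : IsCoprime (r.map (evalRingHom e)) (q.map (evalRingHom e))) {A B : ℕ} (hA : m₀ ≤ A)
    (hB : 2 * m₁ ≤ B) :
    WW K x y A B = WW K x y (A - 1) B := by
  have h1 : WW K x y A B ≤ (WW K x y (A - 1) B).map
      (LinearMap.mulLeft K (x - algebraMap K E e)) := by
    refine Submodule.span_le.2 ?_
    rintro _ ⟨i, j, hi, hj, rfl⟩
    have hF : BD A B (C (X ^ i) * X ^ j : Polynomial (Polynomial K)) := by
      refine ⟨(natDegree_C_mul_X_pow_le _ _).trans hj, fun l => ?_⟩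
      rw [coeff_C_mul_X_pow]
      split_ifs
      · rw [natDegree_X_pow]
        exact hi
      · simp
    obtain ⟨F₁, hF₁, h⟩ := core hr hq er eq e hlc hco hA hB hF
    refine ⟨ev2 x y F₁, ev_mem hF₁, ?_⟩
    rw [LinearMap.mulLeft_apply, ← h, map_mul, ev2_C, map_pow, map_pow, aeval_X, ev2_X]
  have hfin : ∀ A : ℕ, Module.Finite K (WW K x y A B) := by
    intro A
    apply FiniteDimensional.span_of_finite
    have : {z : E | ∃ i j : ℕ, i ≤ A ∧ j ≤ B ∧ z = x ^ i * y ^ j} ⊆
        (fun p : ℕ × ℕ => x ^ p.1 * y ^ p.2) '' (Set.Iic A ×ˢ Set.Iic B) := by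
      rintro _ ⟨i, j, hi, hj, rfl⟩
      exact ⟨(i, j), ⟨hi, hj⟩, rfl⟩
    exact (((Set.finite_Iic A).prod (Set.finite_Iic B)).image _).subset this
  have h2 : WW K x y (A - 1) B ≤ WW K x y A B := by
    apply Submodule.span_mono
    rintro _ ⟨i, j, hi, hj, rfl⟩
    exact ⟨i, j, hi.trans (Nat.sub_le _ _), hj, rfl⟩
  have := hfin A
  have := hfin (A - 1)
  refine (Submodule.eq_of_le_of_finrank_le h2 ?_).symm
  exact (Submodule.finrank_mono h1).trans (Submodule.finrank_map_le _ _)

end core

section psi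

open Polynomial

variable {k K : Type*} [Field k] [Field K] [Algebra k K] {ι : Type*}

/-- the images of the variables, `c` is the index of the outer variable -/
noncomputable def gv (a : ι → K) (c : Fin 2) : ι ⊕ Fin 2 → Polynomial (Polynomial K) :=
  Sum.elim (fun i => C (C (a i))) (fun d => if d = c then X else C X)

/-- specialisation of the first variables -/
noncomputable def psi (k : Type*) {K : Type*} [Field k] [Field K] [Algebra k K] {ι : Type*}
    (a : ι → K) (c : Fin 2) : MvPolynomial (ι ⊕ Fin 2) k →ₐ[k] Polynomial (Polynomial K) :=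
  MvPolynomial.aeval (gv a c)

theorem BD_gv [DecidableEq ι] (a : ι → K) {c c' : Fin 2} (hcc : ∀ d, d = c ∨ d = c')
    (i : ι ⊕ Fin 2) :
    BD (if i = Sum.inr c' then 1 else 0) (if i = Sum.inr c then 1 else 0) (gv a c i) := by
  rcases i with i | d
  · rw [if_neg (by simp), if_neg (by simp)]
    refine ⟨?_, fun j => ?_⟩
    · simp [gv]
    · simp only [gv, Sum.elim_inl]
      rw [coeff_C]
      split_ifs <;> simp
  · by_cases h : d = c
    · subst h
      rw [if_pos rfl]
      refine BD.mono (A := 0) (B := 1) ⟨?_, fun j => ?_⟩ (Nat.zero_le _) le_rfl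
      · simp [gv]
      · simp only [gv, Sum.elim_inr, if_true]
        rw [coeff_X]
        split_ifs <;> simp
    · have h' : d = c' := (hcc d).resolve_left h
      subst h'
      rw [if_pos rfl]
      refine BD.mono (A := 1) (B := 0) ⟨?_, fun j => ?_⟩ le_rfl (Nat.zero_le _)
      · simp [gv, h]
      · simp only [gv, Sum.elim_inr, if_neg h]
        rw [coeff_C]
        split_ifs <;> simp

theorem BD_prod [DecidableEq ι] (a : ι → K) {c c' : Fin 2} (hcc : ∀ d, d = c ∨ d = c')
    (s : ι ⊕ Fin 2 → ℕ) (S : Finset (ι ⊕ Fin 2)) :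
    BD (∑ i ∈ S, if i = Sum.inr c' then s i else 0) (∑ i ∈ S, if i = Sum.inr c then s i else 0)
      (∏ i ∈ S, gv a c i ^ s i) := by
  induction S using Finset.induction_on with
  | empty =>
    refine ⟨by simp, fun j => ?_⟩
    rw [Finset.prod_empty, coeff_one]
    split_ifs <;> simp
  | insert i S hi ih =>
    rw [Finset.sum_insert hi, Finset.sum_insert hi, Finset.prod_insert hi]
    refine BD.mul ?_ ih
    refine ((BD_gv a hcc i).pow (s i)).mono ?_ ?_
    · split_ifs <;> simp
    · split_ifs <;> simp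

theorem BD_psi (a : ι → K) {c c' : Fin 2} (hcc : ∀ d, d = c ∨ d = c')
    (P : MvPolynomial (ι ⊕ Fin 2) k) :
    BD (MvPolynomial.degreeOf (Sum.inr c') P) (MvPolynomial.degreeOf (Sum.inr c) P)
      (psi k a c P) := by
  classical
  have h : ∀ S ⊆ P.support, BD (MvPolynomial.degreeOf (Sum.inr c') P)
      (MvPolynomial.degreeOf (Sum.inr c) P)
      (psi k a c (∑ s ∈ S, MvPolynomial.monomial s (MvPolynomial.coeff s P))) := by
    intro S hS
    rw [map_sum]
    refine Finset.sum_induction _ (fun F => BD (MvPolynomial.degreeOf (Sum.inr c') P)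
      (MvPolynomial.degreeOf (Sum.inr c) P) F) (fun _ _ => BD.add) (BD.zero _ _) ?_
    intro s hs
    have hs' := hS hs
    rw [psi, MvPolynomial.aeval_monomial, Finsupp.prod]
    have h1 := BD_prod a hcc (fun i => s i) s.support
    have h2 : BD 0 0 (algebraMap k (Polynomial (Polynomial K)) (MvPolynomial.coeff s P)) := by
      rw [IsScalarTower.algebraMap_apply k K, Polynomial.algebraMap_apply,
        Polynomial.algebraMap_apply, Algebra.algebraMap_self, RingHom.id_apply]
      refine ⟨by simp, fun j => ?_⟩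
      rw [coeff_C]
      split_ifs <;> simp
    have h3 := h2.mul h1
    rw [zero_add, zero_add] at h3
    refine h3.mono ?_ ?_
    · rw [Finset.sum_ite_eq']
      split_ifs
      · exact MvPolynomial.monomial_le_degreeOf _ hs'
      · exact Nat.zero_le _
    · rw [Finset.sum_ite_eq']
      split_ifs
      · exact MvPolynomial.monomial_le_degreeOf _ hs'
      · exact Nat.zero_le _
  have h1 := h P.support (Finset.Subset.refl _)
  rwa [← MvPolynomial.as_sum] at h1

theorem ev2_psi {E : Type*} [Field E] [Algebra K E] [Algebra k E] [IsScalarTower k K E]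
    (a : ι → K) (u : Fin 2 → E) {c c' : Fin 2} (hcc : ∀ d, d = c ∨ d = c')
    (P : MvPolynomial (ι ⊕ Fin 2) k) :
    ev2 (u c') (u c) (psi k a c P) =
      MvPolynomial.aeval (Sum.elim (fun i => algebraMap K E (a i)) u) P := by
  have h : (ev2 (K := K) (u c') (u c)).comp (psi k a c).toRingHom =
      (MvPolynomial.aeval (Sum.elim (fun i => algebraMap K E (a i)) u) :
        MvPolynomial (ι ⊕ Fin 2) k →ₐ[k] E).toRingHom := by
    apply MvPolynomial.ringHom_ext
    · intro r
      have h1 : (psi k a c).toRingHom (MvPolynomial.C r) =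
          C (C (algebraMap k K r)) := by
        change psi k a c (algebraMap k _ r) = _
        rw [AlgHom.commutes, IsScalarTower.algebraMap_apply k K, Polynomial.algebraMap_apply,
          Polynomial.algebraMap_apply, Algebra.algebraMap_self, RingHom.id_apply]
      rw [RingHom.comp_apply, h1, ev2_C, aeval_C, ← IsScalarTower.algebraMap_apply]
      exact ((MvPolynomial.aeval (Sum.elim (fun i => algebraMap K E (a i)) u)).commutes r).symm
    · rintro (i | d)
      · simp [psi, gv, ev2_C]
      · by_cases h : d = c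
        · subst h
          simp [psi, gv, ev2_X]
        · have h' : d = c' := (hcc d).resolve_left h
          subst h'
          simp [psi, gv, h, ev2_C]
  exact congrArg (fun g : MvPolynomial (ι ⊕ Fin 2) k →+* E => g P) h

theorem psi_inj [Infinite k] {a : ι → K} (ha : AlgebraicIndependent k a) (c : Fin 2)
    {P : MvPolynomial (ι ⊕ Fin 2) k} (hP : psi k a c P = 0) : P = 0 := by
  apply MvPolynomial.funext
  intro z
  rw [map_zero]
  -- the specialisation of the last two variables
  obtain ⟨S, hS⟩ : ∃ S : MvPolynomial ι k, S = MvPolynomial.aeval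
      (Sum.elim MvPolynomial.X fun d => MvPolynomial.C (z (Sum.inr d))) P := ⟨_, rfl⟩
  obtain ⟨c', hc', hcc⟩ : ∃ c' : Fin 2, c' ≠ c ∧ ∀ d, d = c ∨ d = c' := by
    fin_cases c
    · exact ⟨1, by decide, by decide⟩
    · exact ⟨0, by decide, by decide⟩
  have h1 : MvPolynomial.aeval a S = 0 := by
    have h2 := ev2_psi (E := K) a (fun d => algebraMap k K (z (Sum.inr d))) hcc P
    rw [hP, map_zero] at h2
    rw [h2, hS]
    have h3 : (MvPolynomial.aeval a).comp (MvPolynomial.aeval
        (Sum.elim MvPolynomial.X fun d => MvPolynomial.C (z (Sum.inr d))) :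
          MvPolynomial (ι ⊕ Fin 2) k →ₐ[k] MvPolynomial ι k) =
        MvPolynomial.aeval (Sum.elim (fun i => algebraMap K K (a i))
          fun d => algebraMap k K (z (Sum.inr d))) := by
      apply MvPolynomial.algHom_ext
      rintro (i | d)
      · simp
      · simp
    exact congrArg (fun g : MvPolynomial (ι ⊕ Fin 2) k →ₐ[k] K => g P) h3
  have h2 : S = 0 := by
    apply ha
    rw [h1, map_zero]
  have h3 : (MvPolynomial.aeval (fun i => z (Sum.inl i)) : MvPolynomial ι k →ₐ[k] k).comp
      (MvPolynomial.aeval (Sum.elim MvPolynomial.X fun d => MvPolynomial.C (z (Sum.inr d))) :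
          MvPolynomial (ι ⊕ Fin 2) k →ₐ[k] MvPolynomial ι k) = MvPolynomial.aeval z := by
    apply MvPolynomial.algHom_ext
    rintro (i | d)
    · simp
    · simp
  have h4 := congrArg (fun g : MvPolynomial (ι ⊕ Fin 2) k →ₐ[k] k => g P) h3
  simp only [AlgHom.comp_apply] at h4
  rw [← hS, h2, map_zero] at h4
  rw [← MvPolynomial.aeval_eq_eval]
  exact h4.symm

end psi

section main

open Polynomial

variable {k K E : Type*} [Field k] [Infinite k] [Field K] [Algebra k K] [Field E] [Algebra K E]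
  [Algebra k E] [IsScalarTower k K E] {ι : Type}

theorem W_red {a : ι → K} (ha : AlgebraicIndependent k a) (u : Fin 2 → E) {c c' : Fin 2}
    (hcc : ∀ d, d = c ∨ d = c') {R Q U V w : MvPolynomial (ι ⊕ Fin 2) k}
    (hw : U * R + V * Q = w) (hw0 : w ≠ 0) (hdw : MvPolynomial.degreeOf (Sum.inr c) w = 0)
    (hR0 : R ≠ 0) (hR : MvPolynomial.aeval (Sum.elim (fun i => algebraMap K E (a i)) u) R = 0)
    (hQ : MvPolynomial.aeval (Sum.elim (fun i => algebraMap K E (a i)) u) Q = 0) {m : Fin 2 → ℕ}
    (hmR : ∀ c, MvPolynomial.degreeOf (Sum.inr c) R ≤ m c)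
    (hmQ : ∀ c, MvPolynomial.degreeOf (Sum.inr c) Q ≤ m c) {A B : ℕ} (hA : m c' ≤ A)
    (hB : 2 * m c ≤ B) : WW K (u c') (u c) A B = WW K (u c') (u c) (A - 1) B := by
  have hr : BD (m c') (m c) (psi k a c R) := (BD_psi a hcc R).mono (hmR c') (hmR c)
  have hq : BD (m c') (m c) (psi k a c Q) := (BD_psi a hcc Q).mono (hmQ c') (hmQ c)
  have er : ev2 (u c') (u c) (psi k a c R) = 0 := by rw [ev2_psi a u hcc, hR]
  have eq : ev2 (u c') (u c) (psi k a c Q) = 0 := by rw [ev2_psi a u hcc, hQ]
  have hr0 : psi k a c R ≠ 0 := fun h => hR0 (psi_inj ha c h)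
  -- the resultant
  have hpw : (psi k a c w) = C ((psi k a c w).coeff 0) := by
    apply eq_C_of_natDegree_le_zero
    have := (BD_psi a hcc w).1
    rwa [hdw] at this
  have hw1 : (psi k a c w).coeff 0 ≠ 0 := by
    intro h0
    rw [h0, C_0] at hpw
    exact hw0 (psi_inj ha c hpw)
  -- the choice of the point
  have hbad : (({e : K | ((psi k a c w).coeff 0).IsRoot e} ∪
      {e : K | ((psi k a c R).leadingCoeff).IsRoot e})).Finite :=
    (finite_setOfPred_isRoot hw1).union (finite_setOfPred_isRoot (leadingCoeff_ne_zero.2 hr0))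
  obtain ⟨e, he⟩ : ∃ e : k, algebraMap k K e ∉ ({e : K | ((psi k a c w).coeff 0).IsRoot e} ∪
      {e : K | ((psi k a c R).leadingCoeff).IsRoot e}) := by
    by_contra hcon
    have h1 : (Set.range (algebraMap k K)).Finite := hbad.subset (by
      rintro _ ⟨e, rfl⟩
      exact not_not.1 fun h => hcon ⟨e, h⟩)
    exact Set.infinite_range_of_injective (algebraMap k K).injective h1
  rw [Set.mem_union, not_or] at he
  have hlc : (psi k a c R).leadingCoeff.eval (algebraMap k K e) ≠ 0 := he.2
  have hwe : ((psi k a c w).coeff 0).eval (algebraMap k K e) ≠ 0 := he.1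
  refine W_le hr hq er eq (algebraMap k K e) hlc ?_ hA hB
  have h1 : (psi k a c U).map (evalRingHom (algebraMap k K e)) *
      (psi k a c R).map (evalRingHom (algebraMap k K e)) +
      (psi k a c V).map (evalRingHom (algebraMap k K e)) *
      (psi k a c Q).map (evalRingHom (algebraMap k K e)) =
      C (((psi k a c w).coeff 0).eval (algebraMap k K e)) := by
    rw [← Polynomial.map_mul, ← Polynomial.map_mul, ← Polynomial.map_add, ← map_mul, ← map_mul,
      ← map_add, hw]
    conv_lhs => rw [hpw]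
    rw [map_C]
    rfl
  refine ⟨C ((((psi k a c w).coeff 0).eval (algebraMap k K e))⁻¹) *
    (psi k a c U).map (evalRingHom (algebraMap k K e)),
    C ((((psi k a c w).coeff 0).eval (algebraMap k K e))⁻¹) *
    (psi k a c V).map (evalRingHom (algebraMap k K e)), ?_⟩
  rw [mul_assoc, mul_assoc, ← mul_add, h1, ← C_mul, inv_mul_cancel₀ hwe, C_1]

theorem WW_comm (x y : E) (A B : ℕ) : WW K x y A B = WW K y x B A := by
  unfold WW
  congr 1
  ext z
  constructor
  · rintro ⟨i, j, hi, hj, rfl⟩
    exact ⟨j, i, hj, hi, mul_comm _ _⟩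
  · rintro ⟨i, j, hi, hj, rfl⟩
    exact ⟨j, i, hj, hi, mul_comm _ _⟩

end main

/-- **SPA** -/
theorem spa (hcop : CopStmt.{u, 0}) : SpaStmt.{u} := by
  intro k _ _ E _ _ ι _ a u ha R Q hRi hRQ hR hQ m hmR hmQ n₀ n₁
  obtain ⟨K, hK⟩ : ∃ K, K = IntermediateField.adjoin k (Set.range a) := ⟨_, rfl⟩
  have haK : ∀ i, a i ∈ K := fun i => by
    rw [hK]
    exact IntermediateField.subset_adjoin k _ ⟨i, rfl⟩
  obtain ⟨a', ha'⟩ : ∃ a' : ι → K, ∀ i, algebraMap K E (a' i) = a i :=
    ⟨fun i => ⟨a i, haK i⟩, fun i => rfl⟩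
  have hae : (fun i => algebraMap K E (a' i)) = a := funext ha'
  have hai : AlgebraicIndependent k a' := by
    apply AlgebraicIndependent.of_comp (K.val)
    have : K.val ∘ a' = a := funext ha'
    rw [this]
    exact ha
  rw [← hK]
  have hred : ∀ c c' : Fin 2, (∀ d, d = c ∨ d = c') → ∀ A B : ℕ, m c' ≤ A → 2 * m c ≤ B →
      WW K (u c') (u c) A B = WW K (u c') (u c) (A - 1) B := by
    intro c c' hcc A B hA hB
    obtain ⟨U, V, w, hw, hw0, hdw⟩ := hcop R Q hRi hRQ (Sum.inr c)
    exact W_red hai u hcc hw hw0 hdw hRi.ne_zero (by rw [hae]; exact hR) (by rw [hae]; exact hQ)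
      hmR hmQ hA hB
  have hred2 : ∀ c c' : Fin 2, (∀ d, d = c ∨ d = c') → ∀ n B : ℕ, 2 * m c ≤ B →
      WW K (u c') (u c) (2 * m c' + n) B = WW K (u c') (u c) (2 * m c') B := by
    intro c c' hcc n B hB
    induction n with
    | zero => rfl
    | succ n ih =>
      rw [hred c c' hcc (2 * m c' + (n + 1)) B (by omega) hB]
      exact ih
  have h1 : u 0 ^ n₀ * u 1 ^ n₁ ∈ WW K (u 0) (u 1) (2 * m 0 + n₀) (2 * m 1 + n₁) :=
    Submodule.subset_span ⟨n₀, n₁, by omega, by omega, rfl⟩
  rw [hred2 1 0 (by decide) n₀ _ (by omega), WW_comm, hred2 0 1 (by decide) n₁ _ (by omega),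
    WW_comm] at h1
  refine Submodule.span_mono ?_ h1
  rintro _ ⟨i, j, hi, hj, rfl⟩
  exact ⟨i, j, hi, hj, rfl⟩

end Pool.Agent.PPX.H46
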